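import Pool.Agent.U180.DP.Stm2

/-! Project DP, package SECLOW (helper925): the lower bound for the gaps of the displaced primes. -/

set_option autoImplicit false

open MeasureTheory ProbabilityTheory Filter Topology

namespace Pool.Agent.U925.DP

open Pool.Agent.U180.DP

lemma nmv {Ω : Type} {A : ℝ} {U : ℕ → Ω → ℝ} {x y : ℝ} {ω : Ω} :
    ω ∉ void A U x y ↔ ∃ p : ℕ, p.Prime ∧ x < dis A U p ω ∧ dis A U p ω ≤ x + y := by
  unfold void
  simp only [Set.mem_ofPred_eq, not_forall, not_not, exists_prop]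

lemma amp_nn {A : ℝ} {p : ℕ} (_ : p.Prime) : 0 ≤ amp A p := by
  unfold amp
  have : 0 ≤ Real.log p := Real.log_natCast_nonneg p
  positivity

lemma le_dis' {Ω : Type} {A : ℝ} {U : ℕ → Ω → ℝ} {ω : Ω} (hU : ∀ p, 0 ≤ U p ω) {p : ℕ}
    (hp : p.Prime) : (p : ℝ) ≤ dis A U p ω := by
  unfold dis
  have := mul_nonneg (amp_nn (A := A) hp) (hU p)
  linarith

/-- a gap from an event `start` -/
lemma gap_of {Ω : Type} {A : ℝ} {U : ℕ → Ω → ℝ} {ω : Ω} (hU0 : ∀ p, 0 ≤ U p ω) {x y : ℝ}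
    (hω : ω ∈ start A U x y) :
    ∃ a b : ℝ, IsGap A U ω a b ∧ x - 1 < a ∧ a ≤ x ∧ x + y < b := by
  obtain ⟨hx, hx'⟩ := hω
  obtain ⟨q, hq, hq1, hq2⟩ := nmv.1 hx'
  have hxq : dis A U q ω ≤ x := by linarith
  -- the left end
  obtain ⟨pa, hpa, hpam⟩ := Finset.exists_max_image
    ((Finset.range (⌊x⌋₊ + 1)).filter fun p : ℕ => p.Prime ∧ dis A U p ω ≤ x)
    (fun p => dis A U p ω) ⟨q, by
      rw [Finset.mem_filter, Finset.mem_range, Nat.lt_succ_iff]
      exact ⟨Nat.le_floor ((le_dis' hU0 hq).trans hxq), hq, hxq⟩⟩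
  rw [Finset.mem_filter] at hpa
  have hmaxa : ∀ p : ℕ, p.Prime → dis A U p ω ≤ x → dis A U p ω ≤ dis A U pa ω := by
    intro p hp hpx
    apply hpam p
    rw [Finset.mem_filter, Finset.mem_range, Nat.lt_succ_iff]
    exact ⟨Nat.le_floor ((le_dis' hU0 hp).trans hpx), hp, hpx⟩
  -- the right end
  obtain ⟨r, hr1, hr⟩ := Nat.exists_infinite_primes (⌊x⌋₊ + 1)
  have hxr : x < dis A U r ω := by
    have h1 := le_dis' (A := A) hU0 hr
    have h2 : (⌊x⌋₊ : ℝ) + 1 ≤ r := by exact_mod_cast hr1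
    have h3 := Nat.lt_floor_add_one x
    linarith
  obtain ⟨pb, hpb, hpbm⟩ := Finset.exists_min_image
    ((Finset.range (⌊dis A U r ω⌋₊ + 1)).filter fun p : ℕ => p.Prime ∧ x < dis A U p ω)
    (fun p => dis A U p ω) ⟨r, by
      rw [Finset.mem_filter, Finset.mem_range, Nat.lt_succ_iff]
      exact ⟨Nat.le_floor (le_dis' hU0 hr), hr, hxr⟩⟩
  rw [Finset.mem_filter] at hpb
  have hminb : ∀ p : ℕ, p.Prime → x < dis A U p ω → dis A U pb ω ≤ dis A U p ω := by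
    intro p hp hpx
    by_cases hpr : dis A U p ω ≤ dis A U r ω
    · apply hpbm p
      rw [Finset.mem_filter, Finset.mem_range, Nat.lt_succ_iff]
      exact ⟨Nat.le_floor ((le_dis' hU0 hp).trans hpr), hp, hpx⟩
    · push Not at hpr
      refine le_trans (hpbm r ?_) hpr.le
      rw [Finset.mem_filter, Finset.mem_range, Nat.lt_succ_iff]
      exact ⟨Nat.le_floor (le_dis' hU0 hr), hr, hxr⟩
  have hay : dis A U pa ω ≤ x := hpa.2.2
  have hby : x + y < dis A U pb ω := by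
    by_contra hcon
    push Not at hcon
    exact hx pb hpb.2.1 ⟨hpb.2.2, hcon⟩
  have haq : dis A U q ω ≤ dis A U pa ω := hmaxa q hq hxq
  refine ⟨dis A U pa ω, dis A U pb ω, ⟨⟨pa, hpa.2.1, rfl⟩, ⟨pb, hpb.2.1, rfl⟩, ?_, ?_⟩, ?_, hay,
    hby⟩
  · exact lt_of_le_of_lt hay hpb.2.2
  · intro p hp
    rcases le_or_gt (dis A U p ω) x with h1 | h1
    · exact Or.inl (hmaxa p hp h1)
    · exact Or.inr (hminb p hp h1)
  · linarith

/-- the length of the windows -/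
noncomputable def yy (η : ℝ) (x : ℝ) : ℝ := Real.log x ^ 2 + (1 - η) * (Real.log x * l3 x)

/-- large numbers -/
def Big (x : ℝ) : Prop := 0 < x ∧ 1 ≤ Real.log x ∧ 1 ≤ Real.log (Real.log x)

lemma big_ev : ∃ X : ℝ, ∀ x : ℝ, X ≤ x → Big x := by
  have h1 : ∀ᶠ x : ℝ in atTop, Big x := by
    filter_upwards [eventually_gt_atTop 0, Real.tendsto_log_atTop.eventually_ge_atTop 1,
      (Real.tendsto_log_atTop.comp Real.tendsto_log_atTop).eventually_ge_atTop 1] with x h1 h2 h3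
    exact ⟨h1, h2, h3⟩
  exact eventually_atTop.1 h1

lemma l3_nn {x : ℝ} (h : Big x) : 0 ≤ l3 x := Real.log_nonneg h.2.2

lemma l3_le {x : ℝ} (h : Big x) : l3 x ≤ Real.log x := by
  unfold l3
  exact (Real.log_le_self (by linarith [h.2.2])).trans (Real.log_le_self (by linarith [h.2.1]))

lemma yy_pos {η x : ℝ} (hη : η ≤ 1) (h : Big x) : 0 < yy η x := by
  unfold yy
  have h1 := l3_nn h
  have h2 := h.2.1
  have h3 : 0 ≤ (1 - η) * (Real.log x * l3 x) :=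
    mul_nonneg (by linarith) (mul_nonneg (by linarith) h1)
  have h4 : 0 < Real.log x ^ 2 := by positivity
  linarith

lemma yy_le {η x : ℝ} (hη0 : 0 ≤ η) (h : Big x) : yy η x ≤ 2 * Real.log x ^ 2 := by
  unfold yy
  have h1 := l3_nn h
  have h2 := h.2.1
  have h3 := l3_le h
  have h4 : Real.log x * l3 x ≤ Real.log x * Real.log x :=
    mul_le_mul_of_nonneg_left h3 (by linarith)
  have h5 : 0 ≤ Real.log x * l3 x := mul_nonneg (by linarith) h1
  nlinarith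

lemma exp_yy {η x : ℝ} (h : Big x) : (1 - 1 / 2) / Real.log x * Real.exp (-(yy η x / Real.log x)) =
    1 / 2 / (x * Real.log x * Real.log (Real.log x) ^ (1 - η)) := by
  have h2 := h.2.1
  have hL : 0 < Real.log x := by linarith
  have hLL : 0 < Real.log (Real.log x) := by linarith [h.2.2]
  have e1 : yy η x / Real.log x = Real.log x + Real.log (Real.log (Real.log x)) * (1 - η) := by
    unfold yy l3
    field_simp
  rw [e1, neg_add, Real.exp_add, Real.exp_neg, Real.exp_log h.1, Real.exp_neg,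
    Real.rpow_def_of_pos hLL]
  have hx := h.1
  field_simp
  norm_num

lemma mono_yy {η ε a x : ℝ} (hη : η ≤ 1) (hε : η ≤ ε) (ha : Big a) (hax : a ≤ x) :
    Real.log a ^ 2 + (1 - ε) * (Real.log a * l3 a) ≤ yy η x := by
  obtain ⟨h0, h1, h2⟩ := ha
  have ha' : Big a := ⟨h0, h1, h2⟩
  have e1 : Real.log a ≤ Real.log x := Real.log_le_log h0 hax
  have e2 : Real.log (Real.log a) ≤ Real.log (Real.log x) := Real.log_le_log (by linarith) e1
  have e3 : l3 a ≤ l3 x := Real.log_le_log (by linarith) e2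
  have e4 : 0 ≤ l3 a := l3_nn ha'
  have e5 : Real.log a * l3 a ≤ Real.log x * l3 x := by
    apply mul_le_mul e1 e3 e4 (by linarith)
  have e6 : 0 ≤ Real.log a * l3 a := mul_nonneg (by linarith) e4
  have e7 : Real.log a ^ 2 ≤ Real.log x ^ 2 := by
    apply pow_le_pow_left₀ (by linarith) e1
  have e8 : (1 - ε) * (Real.log a * l3 a) ≤ (1 - η) * (Real.log a * l3 a) :=
    mul_le_mul_of_nonneg_right (by linarith) e6
  have e9 : (1 - η) * (Real.log a * l3 a) ≤ (1 - η) * (Real.log x * l3 x) :=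
    mul_le_mul_of_nonneg_left e5 (by linarith)
  unfold yy
  linarith

lemma freq (h1 : S_START) (h2 : S_PAIR2) (h3 : S_LAW) (h4 : S_KS) (h5 : S_SER)
    {Ω : Type} [MeasurableSpace Ω] {P : Measure Ω} {A : ℝ} {U : ℕ → Ω → ℝ} (hU : IsUnif P U)
    (hA : 1 < A) {η : ℝ} (hη : 0 < η) (hη1 : η ≤ 1) :
    ∀ᵐ ω ∂P, ∃ᶠ n : ℕ in atTop, ω ∈ start A U n (yy η n) := by
  classical
  obtain ⟨X₀, hX₀⟩ := h1 A (1 / 2) hA (by norm_num)
  obtain ⟨X₁, hX₁⟩ := big_ev
  obtain ⟨n₁, hn₁⟩ : ∃ n₁ : ℕ, ∀ n : ℕ, n₁ ≤ n → X₀ ≤ n ∧ X₁ ≤ n := by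
    refine ⟨max ⌈X₀⌉₊ ⌈X₁⌉₊, fun n hn => ⟨?_, ?_⟩⟩
    · exact (Nat.le_ceil _).trans (by exact_mod_cast (le_max_left _ _).trans hn)
    · exact (Nat.le_ceil _).trans (by exact_mod_cast (le_max_right _ _).trans hn)
  have hbig : ∀ n : ℕ, n₁ ≤ n → Big (n : ℝ) := fun n hn => hX₁ n (hn₁ n hn).2
  obtain ⟨hv, -, -, -, -⟩ := h3 Ω P A U hU (by linarith)
  have := hU.prob
  obtain ⟨E, hE⟩ : ∃ E : ℕ → Set Ω, E = fun n => if n₁ ≤ n then start A U n (yy η n) else ∅ :=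
    ⟨_, rfl⟩
  have hE1 : ∀ n, n₁ ≤ n → E n = start A U n (yy η n) := fun n hn => by
    rw [hE]
    exact if_pos hn
  have hE2 : ∀ n, ¬ n₁ ≤ n → E n = ∅ := fun n hn => by
    rw [hE]
    exact if_neg hn
  have key := h4 Ω P hU.prob E (fun n => ⌊(n : ℝ) + yy η n⌋₊ + 1) (fun n => by
    by_cases hn : n₁ ≤ n
    · rw [hE1 n hn]
      exact (hv _ _).diff (hv _ _)
    · rw [hE2 n hn]
      exact MeasurableSet.empty) (fun ε hε => by
      obtain ⟨X₂, hX₂⟩ := h2 A ε hA hε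
      refine ⟨max n₁ ⌈X₂⌉₊, fun n m hn hnm hm => ?_⟩
      have hn1 : n₁ ≤ n := (le_max_left _ _).trans hn
      have hm1 : n₁ ≤ m := hn1.trans hnm.le
      rw [hE1 n hn1, hE1 m hm1]
      have hnX : X₂ ≤ n := (Nat.le_ceil _).trans (by exact_mod_cast (le_max_right _ _).trans hn)
      by_cases hc : (m : ℝ) ≤ n + yy η n
      · have e0 : start A U n (yy η n) ∩ start A U m (yy η m) = ∅ := by
          ext ω
          simp only [Set.mem_inter_iff, Set.mem_empty_iff_false, iff_false, not_and]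
          rintro ⟨g1, -⟩ ⟨-, g2⟩
          obtain ⟨p, hp, g3, g4⟩ := nmv.1 g2
          refine g1 p hp ⟨?_, by linarith⟩
          have g5 : (n : ℝ) + 1 ≤ m := by exact_mod_cast hnm
          linarith
        rw [e0, measureReal_empty]
        have : 0 ≤ P.real (start A U n (yy η n)) * P.real (start A U m (yy η m)) := by positivity
        nlinarith
      · push Not at hc
        have hy0 : 0 ≤ (n : ℝ) + yy η n := by
          have := yy_pos hη1 (hbig n hn1)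
          have : (0 : ℝ) ≤ n := Nat.cast_nonneg n
          linarith
        have g1 : ⌊(n : ℝ) + yy η n⌋₊ < m := (Nat.floor_lt hy0).2 hc
        have g2 : ⌊(n : ℝ) + yy η n⌋₊ + 2 ≤ m := by
          have : m ≠ ⌊(n : ℝ) + yy η n⌋₊ + 1 := hm
          omega
        have g3 : (⌊(n : ℝ) + yy η n⌋₊ : ℝ) + 2 ≤ m := by exact_mod_cast g2
        have g4 := Nat.lt_floor_add_one ((n : ℝ) + yy η n)
        exact hX₂ Ω P U hU n (yy η n) m (yy η m) hnX (yy_pos hη1 (hbig n hn1))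
          (yy_le hη.le (hbig n hn1)) (by linarith) (yy_pos hη1 (hbig m hm1))
          (yy_le hη.le (hbig m hm1))) (fun hs => by
      refine (h5 η hη).2 (1 / 2) (by norm_num) ?_
      rw [← summable_nat_add_iff n₁] at hs ⊢
      refine Summable.of_nonneg_of_le (fun n => ?_) (fun n => ?_) hs
      · have hb := hbig (n + n₁) (by omega)
        have g1 := hb.1
        have g2 := hb.2.1
        have g3 := hb.2.2
        have g4 : 0 ≤ Real.log (Real.log ((n + n₁ : ℕ) : ℝ)) ^ (1 - η) :=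
          Real.rpow_nonneg (by linarith) _
        have g5 : 0 ≤ Real.log ((n + n₁ : ℕ) : ℝ) := by linarith
        positivity
      · have hb := hbig (n + n₁) (by omega)
        rw [hE1 (n + n₁) (by omega)]
        have g1 := (hX₀ Ω P U hU ((n + n₁ : ℕ) : ℝ) (yy η ((n + n₁ : ℕ) : ℝ))
          (hn₁ (n + n₁) (by omega)).1 (yy_pos hη1 hb) (yy_le hη.le hb)).1
        rw [exp_yy hb] at g1
        exact g1)
  filter_upwards [key] with ω hω
  refine hω.mono fun n hn => ?_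
  by_cases hn1 : n₁ ≤ n
  · rwa [hE1 n hn1] at hn
  · rw [hE2 n hn1] at hn
    exact absurd hn (Set.notMem_empty ω)

theorem t_SECLOW (h1 : S_START) (h2 : S_PAIR2) (h3 : S_LAW) (h4 : S_KS) (h5 : S_SER) :
    S_SECLOW := by
  intro Ω _ P A U hU hA
  have hall : ∀ᵐ ω ∂P, ∀ k : ℕ, ∃ᶠ n : ℕ in atTop, ω ∈ start A U n (yy (1 / ((k : ℝ) + 2)) n) := by
    rw [ae_all_iff]
    intro k
    have hk : (0 : ℝ) < (k : ℝ) + 2 := by positivity
    exact freq h1 h2 h3 h4 h5 hU hA (by positivity) (by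
      rw [div_le_one hk]
      have : (0 : ℝ) ≤ k := Nat.cast_nonneg k
      linarith)
  filter_upwards [hall, (h3 Ω P A U hU (by linarith)).2.2.1] with ω hω hω2 ε hε T
  have hU0 : ∀ p, 0 ≤ U p ω := fun p => (hω2 p).1
  obtain ⟨k, hk⟩ := exists_nat_gt (1 / ε)
  have hk0 : (0 : ℝ) ≤ k := Nat.cast_nonneg k
  have hkε : 1 / ((k : ℝ) + 2) ≤ ε := by
    rw [div_le_iff₀ (by linarith)]
    rw [div_lt_iff₀ hε] at hk
    nlinarith
  have hk1 : 1 / ((k : ℝ) + 2) ≤ 1 := by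
    rw [div_le_one (by linarith)]
    linarith
  obtain ⟨X₁, hX₁⟩ := big_ev
  obtain ⟨n, hn, hnN⟩ := ((hω k).and_eventually
    (eventually_ge_atTop (max ⌈T⌉₊ ⌈X₁⌉₊ + 1))).exists
  obtain ⟨a, b, hg, ha1, ha2, hb⟩ := gap_of hU0 hn
  have hT : T ≤ (n : ℝ) - 1 := by
    have g1 : ((max ⌈T⌉₊ ⌈X₁⌉₊ : ℕ) : ℝ) + 1 ≤ n := by exact_mod_cast hnN
    have g2 : (⌈T⌉₊ : ℝ) ≤ ((max ⌈T⌉₊ ⌈X₁⌉₊ : ℕ) : ℝ) := by exact_mod_cast le_max_left _ _
    have g3 := Nat.le_ceil T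
    linarith
  have hX : X₁ ≤ (n : ℝ) - 1 := by
    have g1 : ((max ⌈T⌉₊ ⌈X₁⌉₊ : ℕ) : ℝ) + 1 ≤ n := by exact_mod_cast hnN
    have g2 : (⌈X₁⌉₊ : ℝ) ≤ ((max ⌈T⌉₊ ⌈X₁⌉₊ : ℕ) : ℝ) := by exact_mod_cast le_max_right _ _
    have g3 := Nat.le_ceil X₁
    linarith
  refine ⟨a, b, hg, by linarith, ?_⟩
  have := mono_yy hk1 hkε (hX₁ a (by linarith)) ha2
  linarith

end Pool.Agent.U925.DP
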